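import Pool.Agent.Helper10K9.DF.Fam
import Pool.Agent.Helper10K9.DF.Ex
import Pool.Agent.Helper10K9.DF.Cnt

/-!
# MP_d8cc50_co: `𝓜(E) = vec(𝓜(H))` does not imply `D(n, E) = 2 ^ ex(n, H)`

`H0` is a graph with 11 vertices and 15 edges, `E0` is an orientation of it, and
`𝓜(E0) = vec(𝓜(H0))`.  For infinitely many `n` one has `ex(n, H0) ≤ ⌊n²/4⌋ + 1`, while the Turán
graph `T_2(n)` with one additional edge in each of its two classes has at least `3 * 2 ^ ⌊n²/4⌋`
orientations without a copy of `E0`.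

All definitions are in `Pool.Agent.Helper10K9.DF.Defs` (`IsOrientation`, `Contains`, `DG`, `DN`, `GM`,
`InM`, `InVecM`, `InMvec`, `Conj`) and `Pool.Agent.Helper10K9.DF.Graph` (`arcs`, `E0`, `H0`).
-/

set_option autoImplicit false

namespace Pool.Agent.Results.MP_d8cc50_co.Counterexample

open SimpleGraph Pool.Agent.Helper10K9.DF

/-- The answer to Q1 is negative: the statement `Conj` is false, and the oriented graph `E0` with
underlying graph `H0` (11 vertices, 15 edges, chromatic number 3) is a counterexample. -/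
theorem result :
    ¬ Conj ∧
    IsOrientation H0 E0 ∧ H0.chromaticNumber = ((2 + 1 : ℕ) : ℕ∞) ∧
    (∀ (W : Type) [Finite W] (D : W → W → Prop), InMvec H0 E0 2 D ↔ InVecM H0 2 D) ∧
    ∀ n0 : ℕ, ∃ n, n0 ≤ n ∧ 3 * 2 ^ extremalNumber n H0 ≤ 2 * DN n E0 ∧
      2 ^ extremalNumber n H0 < DN n E0 := by
  have key : ∀ n0 : ℕ, ∃ n, n0 ≤ n ∧ 3 * 2 ^ extremalNumber n H0 ≤ 2 * DN n E0 ∧
      2 ^ extremalNumber n H0 < DN n E0 := by
    intro n0
    obtain ⟨n, hn, hn4, hex⟩ := ex_upper n0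
    have h1 := DN_lower hn4
    have h2 : 2 ^ extremalNumber n H0 ≤ 2 ^ (n ^ 2 / 4 + 1) :=
      Nat.pow_le_pow_right (by norm_num) hex
    have h3 : 2 ^ (n ^ 2 / 4 + 1) = 2 * 2 ^ (n ^ 2 / 4) := by rw [pow_succ]; ring
    have h4 : 0 < 2 ^ (n ^ 2 / 4) := by positivity
    exact ⟨n, hn, by omega, by omega⟩
  refine ⟨?_, E0_orientation, H0_chrom, fun W _ D => fam_eq D, key⟩
  intro hconj
  obtain ⟨n0, hn0⟩ := hconj (Fin 11) H0 E0 2 (by norm_num) E0_orientation H0_chrom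
    (fun W _ D => fam_eq D)
  obtain ⟨n, hn, -, hlt⟩ := key n0
  have := hn0 n hn
  omega

end Pool.Agent.Results.MP_d8cc50_co.Counterexample
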